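import Pool.Agent.Lib.MP_2392aa_gt.S.Rat
import Pool.Agent.Lib.MP_2392aa_gt.C.CexDef

/-!
MP_2392aa_gt: for a group commensurable with a conjugate of `SL_n(ℤ)`, the orbit of the nonzero
integral vectors is closed (helper81).
-/

open scoped ContDiff Topology
open LatN (En)
open Filter

namespace LatLin

section
variable {n : ℕ}

theorem intV_eq : intV n = {x : En (Fin n) | ∀ i, ∃ m : ℤ, x i = m} ∩
    {x : En (Fin n) | 1 ≤ ‖x‖} := by
  ext x
  constructor
  · rintro ⟨h0, h⟩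
    refine ⟨h, ?_⟩
    have h1 : ∃ i, x i ≠ 0 := by
      by_contra hc
      push Not at hc
      apply h0
      ext i
      exact hc i
    obtain ⟨i, hi⟩ := h1
    obtain ⟨m, hm⟩ := h i
    have hm0 : m ≠ 0 := by
      rintro rfl
      apply hi
      rw [hm, Int.cast_zero]
    have h2 : (1 : ℝ) ≤ |x i| := by
      rw [hm, ← Int.cast_abs]
      exact_mod_cast Int.one_le_abs hm0
    exact h2.trans (by simpa using PiLp.norm_apply_le x i)
  · rintro ⟨h, h1⟩
    refine ⟨?_, h⟩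
    rintro rfl
    rw [Set.mem_ofPred_eq, norm_zero] at h1
    linarith

theorem isClosed_intV : IsClosed (intV n) := by
  rw [intV_eq]
  refine IsClosed.inter ?_ (isClosed_le continuous_const continuous_norm)
  have h1 : {x : En (Fin n) | ∀ i, ∃ m : ℤ, x i = m} =
      ⋂ i, (fun x : En (Fin n) => x i) ⁻¹' Set.range ((↑) : ℤ → ℝ) := by
    ext x
    simp only [Set.mem_ofPred_eq, Set.mem_iInter, Set.mem_preimage, Set.mem_range]
    exact forall_congr' fun i => exists_congr fun m => eq_comm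
  rw [h1]
  exact isClosed_iInter fun i => Int.isClosedEmbedding_coe_real.isClosed_range.preimage
    (EuclideanSpace.proj i : En (Fin n) →L[ℝ] ℝ).continuous

theorem slG_intV {a : Matrix.SpecialLinearGroup (Fin n) ℝ} (ha : a ∈ SLnZ n) {v : En (Fin n)}
    (hv : v ∈ intV n) : slG (Fin n) a v ∈ intV n := by
  obtain ⟨y, rfl⟩ := ha
  refine ⟨?_, fun i => ?_⟩
  · intro h
    exact hv.1 ((slG (Fin n) (Matrix.SpecialLinearGroup.map (Int.castRingHom ℝ) y)).map_eq_zero_iff.1 h)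
  · choose m hm using hv.2
    refine ⟨∑ j, y.1 i j * m j, ?_⟩
    rw [slG_co]
    push_cast
    refine Finset.sum_congr rfl fun j _ => ?_
    rw [hm j]
    rfl

/-- the operator of an invertible matrix -/
noncomputable def glE (g : GL (Fin n) ℝ) : En (Fin n) ≃L[ℝ] En (Fin n) :=
  ContinuousLinearEquiv.equivOfInverse (om g.1) (om (g⁻¹).1)
    (fun x => by
      change (om (g⁻¹).1 * om g.1) x = x
      rw [om, om, ← map_mul, Units.inv_mul, map_one]
      rfl)
    (fun x => by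
      change (om g.1 * om (g⁻¹).1) x = x
      rw [om, om, ← map_mul, Units.mul_inv, map_one]
      rfl)

theorem glE_slG (g : GL (Fin n) ℝ) (a : Matrix.SpecialLinearGroup (Fin n) ℝ) (x : En (Fin n)) :
    slG (Fin n) (cjSL g a) (glE g x) = glE g (slG (Fin n) a x) := by
  change (om (g.1 * a.1 * (g⁻¹).1) * om g.1) x = (om g.1 * om a.1) x
  rw [om, om, om, ← map_mul, ← map_mul, mul_assoc (g.1 * a.1), Units.inv_mul, mul_one]

/-- the orbit of the nonzero integral vectors -/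
def orbC (Γ : Subgroup (Matrix.SpecialLinearGroup (Fin n) ℝ)) (g : GL (Fin n) ℝ) :
    Set (En (Fin n)) := {x | ∃ γ ∈ Γ, ∃ v ∈ intV n, x = slG (Fin n) γ (glE g v)}

theorem orbC_inv {Γ : Subgroup (Matrix.SpecialLinearGroup (Fin n) ℝ)} {g : GL (Fin n) ℝ}
    {γ : Matrix.SpecialLinearGroup (Fin n) ℝ} (hγ : γ ∈ Γ) {x : En (Fin n)} (hx : x ∈ orbC Γ g) :
    slG (Fin n) γ x ∈ orbC Γ g := by
  obtain ⟨δ, hδ, v, hv, rfl⟩ := hx
  refine ⟨γ * δ, Γ.mul_mem hγ hδ, v, hv, ?_⟩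
  rw [map_mul]
  rfl

theorem orbC_zero (Γ : Subgroup (Matrix.SpecialLinearGroup (Fin n) ℝ)) (g : GL (Fin n) ℝ) :
    (0 : En (Fin n)) ∉ orbC Γ g := by
  rintro ⟨γ, -, v, hv, h⟩
  exact hv.1 ((glE g).map_eq_zero_iff.1 ((slG (Fin n) γ).map_eq_zero_iff.1 h.symm))

theorem isClosed_orbC {Γ : Subgroup (Matrix.SpecialLinearGroup (Fin n) ℝ)} {g : GL (Fin n) ℝ}
    (h1 : ((SLnZ n).map (cjSL g)).relIndex Γ ≠ 0) : IsClosed (orbC Γ g) := by
  set Z := (SLnZ n).map (cjSL g)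
  have hfi : Finite (Γ ⧸ Z.subgroupOf Γ) := by
    have : (Z.subgroupOf Γ).FiniteIndex := ⟨h1⟩
    exact Subgroup.finite_quotient_of_finiteIndex
  have h2 : orbC Γ g = ⋃ q : Γ ⧸ Z.subgroupOf Γ,
      (fun x => slG (Fin n) (q.out : Γ).1 (glE g x)) '' intV n := by
    ext x
    simp only [Set.mem_iUnion, Set.mem_image]
    constructor
    · rintro ⟨γ, hγ, v, hv, rfl⟩
      refine ⟨QuotientGroup.mk (⟨γ, hγ⟩ : Γ), ?_⟩
      set r : Γ := (QuotientGroup.mk (⟨γ, hγ⟩ : Γ) : Γ ⧸ Z.subgroupOf Γ).out with hr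
      have h3 : (QuotientGroup.mk r : Γ ⧸ Z.subgroupOf Γ) = QuotientGroup.mk (⟨γ, hγ⟩ : Γ) :=
        Quotient.out_eq _
      have h4 : r⁻¹ * (⟨γ, hγ⟩ : Γ) ∈ Z.subgroupOf Γ := QuotientGroup.eq.1 h3
      have h5 : r.1⁻¹ * γ ∈ Z := h4
      obtain ⟨a, ha, hav⟩ := h5
      refine ⟨slG (Fin n) a v, slG_intV ha hv, ?_⟩
      rw [← glE_slG, hav]
      change (slG (Fin n) r.1 * slG (Fin n) (r.1⁻¹ * γ)) (glE g v) = _
      rw [← map_mul, mul_inv_cancel_left]
    · rintro ⟨q, v, hv, rfl⟩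
      exact ⟨(q.out : Γ).1, (q.out : Γ).2, v, hv, rfl⟩
  rw [h2]
  refine isClosed_iUnion_of_finite fun q => ?_
  have h3 : (fun x => slG (Fin n) (q.out : Γ).1 (glE g x)) =
      ((glE g).trans (slG (Fin n) (q.out : Γ).1)) := rfl
  rw [h3]
  exact ((glE g).trans (slG (Fin n) (q.out : Γ).1)).toHomeomorph.isClosedMap _ isClosed_intV

/-- an equivariant injective differentiable map meets the orbit -/
theorem orbC_meets (hn : 2 ≤ n) {Γ : Subgroup (Matrix.SpecialLinearGroup (Fin n) ℝ)}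
    {g : GL (Fin n) ℝ} (h2 : Γ.relIndex ((SLnZ n).map (cjSL g)) ≠ 0)
    (Ψ : En (Fin n) → En (Fin n)) (hΨ : Differentiable ℝ Ψ) (hinj : Function.Injective Ψ)
    (heq : ∀ γ ∈ Γ, ∀ x, Ψ (slG (Fin n) γ x) = slG (Fin n) γ (Ψ x)) :
    ∃ v, Ψ v ∈ orbC Γ g := by
  have hi : (⟨0, by omega⟩ : Fin n) = ⟨0, by omega⟩ := rfl
  set i : Fin n := ⟨0, by omega⟩
  set Γ' : Subgroup (Matrix.SpecialLinearGroup (Fin n) ℝ) := Γ.comap (cjSL g)
  have h3 : Γ'.relIndex (SLnZ n) ≠ 0 := by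
    rw [← Subgroup.relIndex_comap] at h2
    exact h2
  obtain ⟨v, hv⟩ := axis_mem hn h3 (fun x => (glE g).symm (Ψ (glE g x)))
    ((glE g).symm.differentiable.comp (hΨ.comp (glE g).differentiable))
    (fun x y hxy => (glE g).injective (hinj ((glE g).symm.injective hxy)))
    (fun γ hγ x => by
      have h4 := heq (cjSL g γ) hγ (glE g x)
      rw [glE_slG] at h4
      have h5 := glE_slG g γ ((glE g).symm (Ψ (glE g x)))
      rw [(glE g).apply_symm_apply] at h5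
      rw [h4, h5, (glE g).symm_apply_apply]) i
  refine ⟨glE g v, 1, Γ.one_mem, ax i, ⟨?_, fun j => ?_⟩, ?_⟩
  · intro h
    have := congrArg (fun x : En (Fin n) => x i) h
    simp [ax] at this
  · by_cases hj : j = i
    · subst hj
      exact ⟨1, by simp [ax]⟩
    · exact ⟨0, by simp [ax, hj]⟩
  · rw [map_one]
    change Ψ (glE g v) = glE g (ax i)
    rw [← hv, (glE g).apply_symm_apply]

end
end LatLin
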