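import Pool.Agent.Lib.MP_2392aa_gt.S.CexC
import Pool.Agent.Lib.MP_2392aa_gt.C.FinQ

/-!
MP_2392aa_gt: the second question has a negative answer for all groups commensurable with a conjugate
of `SL_n(ℤ)` (helper81; the manifold part after helper95).
-/

open scoped ContDiff Topology Manifold
open LatN (En)

namespace LatLin

section
variable {n : ℕ}

/-- the linear action on the complement of the orbit of the nonzero integral vectors -/
theorem cexC_exists (hn : 2 ≤ n) (Γ : Subgroup (Matrix.SpecialLinearGroup (Fin n) ℝ))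
    (g : GL (Fin n) ℝ) (h1 : ((SLnZ n).map (cjSL g)).relIndex Γ ≠ 0)
    (h2 : Γ.relIndex ((SLnZ n).map (cjSL g)) ≠ 0) :
    ∃ (M : TopologicalSpace.Opens (En (Fin n))) (_ : MulAction Γ M) (p : M),
      (∀ x : En (Fin n), x ∈ M ↔ x ∉ orbC Γ g) ∧ (p : En (Fin n)) = 0 ∧
      (∀ (γ : Γ) (x : M), ((γ • x : M) : En (Fin n)) = slG (Fin n) γ (x : En (Fin n))) ∧
      (∀ γ : Γ, ContMDiff 𝓘(ℝ, En (Fin n)) 𝓘(ℝ, En (Fin n)) ∞ (fun x : M => γ • x)) ∧
      (∀ γ : Γ, γ • p = p) ∧ (∀ x : M, (∀ γ : Γ, γ • x = x) → x = p) ∧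
      ∀ (γ : Γ) (v : En (Fin n)), (mfderiv 𝓘(ℝ, En (Fin n)) 𝓘(ℝ, En (Fin n))
        (fun x : M => γ • x) p : En (Fin n) →L[ℝ] En (Fin n)) v = slG (Fin n) γ v := by
  have hnot : ∀ (γ : Γ) (x : En (Fin n)), x ∉ orbC Γ g → slG (Fin n) γ.1 x ∉ orbC Γ g := by
    intro γ x hx h
    apply hx
    have h3 := orbC_inv (Γ.inv_mem γ.2) h
    have h4 : slG (Fin n) γ.1⁻¹ (slG (Fin n) γ.1 x) = x := by
      change (slG (Fin n) γ.1⁻¹ * slG (Fin n) γ.1) x = x
      rw [← map_mul, inv_mul_cancel, map_one]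
      rfl
    rwa [h4] at h3
  let M : TopologicalSpace.Opens (En (Fin n)) := ⟨(orbC Γ g)ᶜ, (isClosed_orbC h1).isOpen_compl⟩
  let act : MulAction Γ M :=
    { smul := fun γ x => ⟨slG (Fin n) γ.1 x.1, hnot γ x.1 x.2⟩
      one_smul := fun x => Subtype.ext (by
        change slG (Fin n) (1 : Matrix.SpecialLinearGroup (Fin n) ℝ) x.1 = x.1
        rw [map_one]
        rfl)
      mul_smul := fun γ δ x => Subtype.ext (by
        change slG (Fin n) (γ.1 * δ.1) x.1 = slG (Fin n) γ.1 (slG (Fin n) δ.1 x.1)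
        rw [map_mul]
        rfl) }
  let p : M := ⟨0, orbC_zero Γ g⟩
  have hact : ∀ (γ : Γ) (x : M), ((γ • x : M) : En (Fin n)) = slG (Fin n) γ (x : En (Fin n)) :=
    fun γ x => rfl
  have hfix : ∀ γ : Γ, γ • p = p := fun γ => Subtype.ext (by
    rw [hact]
    exact map_zero _)
  have hsm : ∀ γ : Γ, ContMDiff 𝓘(ℝ, En (Fin n)) 𝓘(ℝ, En (Fin n)) ∞ (fun x : M => γ • x) := by
    intro γ x
    rw [← ContMDiffAt.subtypeVal_comp_iff]
    have h3 : ContMDiff 𝓘(ℝ, En (Fin n)) 𝓘(ℝ, En (Fin n)) ∞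
        (fun x : M => slG (Fin n) γ.1 (x : En (Fin n))) :=
      (slG (Fin n) γ.1).contDiff.contMDiff.comp contMDiff_subtype_val
    exact h3 x
  refine ⟨M, act, p, fun x => Iff.rfl, rfl, hact, hsm, hfix, ?_, ?_⟩
  · intro x hx
    apply Subtype.ext
    change (x : En (Fin n)) = 0
    have h3 : (Γ.comap (cjSL g)).relIndex (SLnZ n) ≠ 0 := by
      rw [Subgroup.relIndex_comap]
      exact h2
    have h5 : (glE g).symm (x : En (Fin n)) = 0 := by
      ext j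
      have : Nontrivial (Fin n) := Fin.nontrivial_iff_two_le.2 hn
      obtain ⟨i, hij⟩ := exists_ne j
      obtain ⟨k, hk, hl⟩ := exists_elt h3 hij
      have hk0 : ((1 : ℕ) : ℝ) * (k : ℝ) ≠ 0 := by
        have : (k : ℝ) ≠ 0 := by exact_mod_cast hk.ne'
        simpa using this
      refine fix_zero hij hk0 ?_
      have h6 : slG (Fin n) (cjSL g (elt hij (((1 : ℕ) : ℝ) * k))) (x : En (Fin n)) = x :=
        congrArg (fun y : M => (y : En (Fin n))) (hx ⟨_, hl 1⟩)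
      apply (glE g).injective
      rw [← glE_slG, (glE g).apply_symm_apply]
      exact h6
    exact (glE g).symm.map_eq_zero_iff.1 h5
  · intro γ v
    have hmd : MDifferentiableAt 𝓘(ℝ, En (Fin n)) 𝓘(ℝ, En (Fin n)) (fun x : M => γ • x) p :=
      (hsm γ p).mdifferentiableAt (by simp)
    have hD : HasMFDerivAt 𝓘(ℝ, En (Fin n)) 𝓘(ℝ, En (Fin n)) (fun x : M => γ • x) p
        (slG (Fin n) γ.1 : En (Fin n) →L[ℝ] En (Fin n)) := by
      refine ⟨hmd.continuousAt, ?_⟩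
      have he : ∀ (q z : M), extChartAt 𝓘(ℝ, En (Fin n)) q z = (z : En (Fin n)) := fun q z => rfl
      have h3 : ∀ᶠ y in 𝓝 (0 : En (Fin n)),
          writtenInExtChartAt 𝓘(ℝ, En (Fin n)) 𝓘(ℝ, En (Fin n)) p (fun x : M => γ • x) y =
            slG (Fin n) γ.1 y := by
        have h4 : (extChartAt 𝓘(ℝ, En (Fin n)) p).target ∈ 𝓝 (0 : En (Fin n)) :=
          extChartAt_target_mem_nhds (I := 𝓘(ℝ, En (Fin n))) p
        filter_upwards [h4] with y hy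
        have h5 := (extChartAt 𝓘(ℝ, En (Fin n)) p).right_inv hy
        rw [he] at h5
        change extChartAt 𝓘(ℝ, En (Fin n)) (γ • p)
          (γ • ((extChartAt 𝓘(ℝ, En (Fin n)) p).symm y)) = _
        rw [he, hact, h5]
      have h6 : HasFDerivAt (writtenInExtChartAt 𝓘(ℝ, En (Fin n)) 𝓘(ℝ, En (Fin n)) p
          (fun x : M => γ • x)) (slG (Fin n) γ.1 : En (Fin n) →L[ℝ] En (Fin n))
          (0 : En (Fin n)) :=
        (slG (Fin n) γ.1).hasFDerivAt.congr_of_eventuallyEq h3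
      exact h6.hasFDerivWithinAt
    rw [hD.mfderiv]
    rfl

/-- the action is not conjugate to the linear action on the whole space near `0` -/
theorem cexC_not (hn : 2 ≤ n) (Γ : Subgroup (Matrix.SpecialLinearGroup (Fin n) ℝ))
    (g : GL (Fin n) ℝ) (h2 : Γ.relIndex ((SLnZ n).map (cjSL g)) ≠ 0)
    (M : TopologicalSpace.Opens (En (Fin n))) [MulAction Γ M] (p : M)
    (hM : ∀ x : En (Fin n), x ∈ M ↔ x ∉ orbC Γ g)
    (hact : ∀ (γ : Γ) (x : M), ((γ • x : M) : En (Fin n)) = slG (Fin n) γ (x : En (Fin n)))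
    (hp : ∀ γ : Γ, γ • p = p)
    (hd : ∀ (γ : Γ) (v : En (Fin n)), dAt (En (Fin n)) γ p v = slG (Fin n) γ v) :
    ¬ GlobAt (En (Fin n)) Γ p := by
  rintro ⟨U, φ, ψ, hUo, hpU, hU, hφ, hψ, hφψ, hψφ, hφp, heq⟩
  have k1 : Differentiable ℝ fun v => ((ψ v : M) : En (Fin n)) := by
    have h3 : ContMDiff 𝓘(ℝ, En (Fin n)) 𝓘(ℝ, En (Fin n)) ∞
        (fun v => ((ψ v : M) : En (Fin n))) := contMDiff_subtype_val.comp hψ
    exact h3.contDiff.differentiable (by simp)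
  have k2 : Function.Injective fun v => ((ψ v : M) : En (Fin n)) := by
    intro v w hvw
    have h3 : ψ v = ψ w := Subtype.ext hvw
    rw [← (hφψ v).2, ← (hφψ w).2, h3]
  have k3 : ∀ γ ∈ Γ, ∀ x, ((ψ (slG (Fin n) γ x) : M) : En (Fin n)) =
      slG (Fin n) γ ((ψ x : M) : En (Fin n)) := by
    intro γ hγ x
    have h3 := heq ⟨γ, hγ⟩ (hp ⟨γ, hγ⟩) (ψ x) (hφψ x).1
    rw [(hφψ x).2, hd] at h3
    have h4 : ψ (slG (Fin n) γ x) = (⟨γ, hγ⟩ : Γ) • ψ x := by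
      rw [← h3]
      exact hψφ _ (hU ⟨γ, hγ⟩ (hp ⟨γ, hγ⟩) _ (hφψ x).1)
    rw [h4, hact]
  obtain ⟨v, hv⟩ := orbC_meets hn h2 _ k1 k2 k3
  exact (hM _).1 (ψ v).2 hv

theorem unbounded_of_comm (hn : 2 ≤ n) {Γ : Subgroup (Matrix.SpecialLinearGroup (Fin n) ℝ)}
    {g : GL (Fin n) ℝ} (h2 : Γ.relIndex ((SLnZ n).map (cjSL g)) ≠ 0) (C : ℝ) :
    ∃ γ ∈ Γ, C < ‖(slG (Fin n) γ : En (Fin n) →L[ℝ] En (Fin n))‖ := by
  have h3 : (Γ.comap (cjSL g)).relIndex (SLnZ n) ≠ 0 := by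
    rw [Subgroup.relIndex_comap]
    exact h2
  set a : ℝ := ‖((glE g).symm : En (Fin n) →L[ℝ] En (Fin n))‖ with ha
  set b : ℝ := ‖(glE g : En (Fin n) →L[ℝ] En (Fin n))‖ with hb
  have ha0 : 0 ≤ a := norm_nonneg _
  have hb0 : 0 ≤ b := norm_nonneg _
  obtain ⟨γ, hγ, hC⟩ := unbounded_of_index hn h3 (a * |C| * b)
  refine ⟨cjSL g γ, hγ, ?_⟩
  by_contra hcon
  push Not at hcon
  have h4 : (slG (Fin n) γ : En (Fin n) →L[ℝ] En (Fin n)) =
      ((glE g).symm : En (Fin n) →L[ℝ] En (Fin n)) ∘L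
        (slG (Fin n) (cjSL g γ) : En (Fin n) →L[ℝ] En (Fin n)) ∘L
          (glE g : En (Fin n) →L[ℝ] En (Fin n)) := by
    ext1 x
    change slG (Fin n) γ x = (glE g).symm (slG (Fin n) (cjSL g γ) (glE g x))
    rw [glE_slG, (glE g).symm_apply_apply]
  rw [h4] at hC
  have h5 := ContinuousLinearMap.opNorm_comp_le ((glE g).symm : En (Fin n) →L[ℝ] En (Fin n))
    ((slG (Fin n) (cjSL g γ) : En (Fin n) →L[ℝ] En (Fin n)) ∘L
      (glE g : En (Fin n) →L[ℝ] En (Fin n)))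
  have h6 := ContinuousLinearMap.opNorm_comp_le
    (slG (Fin n) (cjSL g γ) : En (Fin n) →L[ℝ] En (Fin n))
    (glE g : En (Fin n) →L[ℝ] En (Fin n))
  have h7 : ‖(slG (Fin n) (cjSL g γ) : En (Fin n) →L[ℝ] En (Fin n))‖ ≤ |C| :=
    hcon.trans (le_abs_self C)
  have h8 : ‖(slG (Fin n) (cjSL g γ) : En (Fin n) →L[ℝ] En (Fin n))‖ * b ≤ |C| * b :=
    mul_le_mul_of_nonneg_right h7 hb0
  have h9 := mul_le_mul_of_nonneg_left (h6.trans h8) ha0
  have h10 := h5.trans h9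
  rw [← mul_assoc] at h10
  linarith

end
end LatLin
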