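import Pool.Agent.Lib.MP_2392aa_gt.S.Defs
import Pool.Agent.Lib.MP_2392aa_gt.C.FinQ

/-!
MP_2392aa_gt: from the final definitions to the models (helper81).
-/

open scoped ContDiff Manifold Topology
open MulOpposite

namespace LatAns

theorem map_of_conj {n : ℕ} (g : GL (Fin n) ℝ) (Λ Λ' : Subgroup (SLR n))
    (h : ∀ x : SLR n, x ∈ Λ' ↔ ∃ y ∈ Λ, x.1 = g.1 * y.1 * (g⁻¹).1) :
    Λ' = Λ.map (LatLin.cjSL g) := by
  ext x
  rw [h]
  constructor
  · rintro ⟨y, hy, hxy⟩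
    exact ⟨y, hy, Subtype.ext hxy.symm⟩
  · rintro ⟨y, hy, rfl⟩
    exact ⟨y, hy, rfl⟩

theorem CommConj.out {n : ℕ} {Γ Λ : Subgroup (SLR n)} (h : CommConj Γ Λ) :
    ∃ g : GL (Fin n) ℝ, (Λ.map (LatLin.cjSL g)).relIndex Γ ≠ 0 ∧
      Γ.relIndex (Λ.map (LatLin.cjSL g)) ≠ 0 := by
  obtain ⟨g, Λ', hΛ, h1, h2⟩ := h
  rw [map_of_conj g Λ Λ' hΛ] at h1 h2
  exact ⟨g, h2, h1⟩

theorem IsOrder.isOrd {d : ℕ} {D : Subring (MR d)} (h : IsOrder D) : LatN.IsOrd (Fin d) D := by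
  obtain ⟨ι, b, hb⟩ := h
  refine ⟨b.reindex (b.indexEquiv (Matrix.stdBasis ℝ (Fin d) (Fin d))), fun x => ?_⟩
  rw [hb, Module.Basis.range_reindex]

theorem IsOrder.prod {n : ℕ} {O : Subring (MR n × (MR n)ᵐᵒᵖ)} (h : IsOrder O) :
    ∃ b : Module.Basis ((Fin n × Fin n) ⊕ (Fin n × Fin n)) ℝ (MR n × (MR n)ᵐᵒᵖ),
      ∀ x, x ∈ O ↔ x ∈ Submodule.span ℤ (Set.range b) := by
  obtain ⟨ι, b, hb⟩ := h
  let b0 : Module.Basis ((Fin n × Fin n) ⊕ (Fin n × Fin n)) ℝ (MR n × (MR n)ᵐᵒᵖ) :=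
    (Matrix.stdBasis ℝ (Fin n) (Fin n)).prod
      ((Matrix.stdBasis ℝ (Fin n) (Fin n)).map (MulOpposite.opLinearEquiv ℝ))
  refine ⟨b.reindex (b.indexEquiv b0), fun x => ?_⟩
  rw [hb, Module.Basis.range_reindex]

/-- an order of `M_1(ℝ)` is the ring of integers -/
theorem order_one (D : Subring (MR 1)) (h : IsOrder D) (x : MR 1) :
    x ∈ D ↔ ∃ a : ℤ, x 0 0 = a := by
  obtain ⟨b, hb⟩ := h.isOrd
  have hr : Set.range b = {b (0, 0)} := by
    ext y
    constructor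
    · rintro ⟨i, rfl⟩
      rw [Set.mem_singleton_iff]
      congr 1
      exact Subsingleton.elim _ _
    · rintro rfl
      exact ⟨_, rfl⟩
  have hb' : ∀ y, y ∈ D ↔ ∃ a : ℤ, a • b (0, 0) = y := by
    intro y
    rw [hb, hr, Submodule.mem_span_singleton]
  set t : ℝ := b (0, 0) 0 0 with ht
  have hD : ∀ y : MR 1, y ∈ D ↔ ∃ a : ℤ, (a : ℝ) * t = y 0 0 := by
    intro y
    rw [hb']
    constructor
    · rintro ⟨a, rfl⟩
      refine ⟨a, ?_⟩
      rw [Matrix.smul_apply, zsmul_eq_mul]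
    · rintro ⟨a, ha⟩
      refine ⟨a, ?_⟩
      ext i j
      rw [Subsingleton.elim i 0, Subsingleton.elim j 0, Matrix.smul_apply, zsmul_eq_mul]
      exact ha
  obtain ⟨k, hk⟩ := (hD 1).1 D.one_mem
  rw [Matrix.one_apply_eq] at hk
  have ht0 : t ≠ 0 := by
    rintro h0
    rw [h0, mul_zero] at hk
    exact zero_ne_one hk
  have hbD : b (0, 0) ∈ D := (hb' _).2 ⟨1, one_smul _ _⟩
  obtain ⟨l, hl⟩ := (hD _).1 (D.mul_mem hbD hbD)
  rw [Matrix.mul_apply, Fin.sum_univ_one] at hl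
  have hl' : (l : ℝ) = t := mul_right_cancel₀ ht0 hl
  rw [← hl'] at hk
  have hkl : k * l = 1 := by exact_mod_cast hk
  rw [hD, ← hl']
  constructor
  · rintro ⟨a, ha⟩
    exact ⟨a * l, by rw [← ha]; push_cast; rfl⟩
  · rintro ⟨a, ha⟩
    refine ⟨a * k, ?_⟩
    rw [ha]
    have : ((a * k * l : ℤ) : ℝ) = (a : ℝ) := by rw [mul_assoc, hkl, mul_one]
    rw [← this]
    push_cast
    rfl

/-- inner type with blocks of size one is `SL_n(ℤ)` -/
theorem inner_one {n : ℕ} {Λ : Subgroup (SLR n)} (h : IsInner n 1 Λ) : Λ = LatLin.SLnZ n := by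
  obtain ⟨m, e, D, hm, hD, -, hΛ⟩ := h
  have h1 : ∀ g : SLR n, (∀ i j, block e g.1 i j ∈ D) ↔ ∀ i j, ∃ a : ℤ, g.1 i j = a := by
    intro g
    constructor
    · intro h i j
      have h2 := (order_one D hD _).1 (h (e.symm i).1 (e.symm j).1)
      have h3 : ∀ i : Fin n, e ((e.symm i).1, 0) = i := by
        intro i
        have : ((e.symm i).1, (0 : Fin 1)) = e.symm i := Prod.ext rfl (Subsingleton.elim _ _)
        rw [this, e.apply_symm_apply]
      simpa only [block, Matrix.of_apply, h3] using h2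
    · intro h i j
      exact (order_one D hD _).2 (h _ _)
  ext g
  rw [hΛ]
  constructor
  · intro h
    have h2 := (h1 g).1 fun i j => (h i j).1
    choose a ha using h2
    have hdet : (Matrix.of a).det = 1 := by
      have h3 : g.1 = (Int.castRingHom ℝ).mapMatrix (Matrix.of a) := by
        ext i j
        exact ha i j
      have h4 := g.2
      rw [h3, ← RingHom.map_det, eq_intCast] at h4
      exact_mod_cast h4
    refine ⟨⟨Matrix.of a, hdet⟩, ?_⟩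
    apply Subtype.ext
    ext i j
    exact (ha i j).symm
  · rintro ⟨y, rfl⟩
    intro i j
    constructor
    · exact (h1 _).2 (fun i j => ⟨y.1 i j, rfl⟩) i j
    · rw [← map_inv]
      exact (h1 _).2 (fun i j => ⟨(y⁻¹).1 i j, rfl⟩) i j

/-- inner type: the model -/
theorem inner_model {n m d : ℕ} {Λ : Subgroup (SLR n)} (e : Fin m × Fin d ≃ Fin n)
    (D : Subring (MR d))
    (hΛ : ∀ g : SLR n, g ∈ Λ ↔ ∀ i j, block e g.1 i j ∈ D ∧ block e g⁻¹.1 i j ∈ D) :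
    Λ.map (LatLin.reSL e.symm).toMonoidHom = LatN.unitI (LatN.blkO (Fin m) D) := by
  ext x
  constructor
  · rintro ⟨g, hg, rfl⟩
    have h1 := (hΛ g).1 hg
    refine ⟨fun i j => (h1 i j).1, fun i j => ?_⟩
    change LatN.blo ((LatLin.reSL e.symm g)⁻¹).1 i j ∈ D
    rw [← map_inv]
    exact (h1 i j).2
  · rintro ⟨h1, h2⟩
    refine ⟨(LatLin.reSL e.symm).symm x, ?_, ?_⟩
    · rw [SetLike.mem_coe, hΛ]
      intro i j
      have h3 : ∀ y : Matrix.SpecialLinearGroup (Fin m × Fin d) ℝ,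
          block e ((LatLin.reSL e.symm).symm y).1 i j = LatN.blo y.1 i j := by
        intro y
        ext a b
        change y.1 (e.symm (e (i, a))) (e.symm (e (j, b))) = y.1 (i, a) (j, b)
        rw [e.symm_apply_apply, e.symm_apply_apply]
      rw [← map_inv, h3, h3]
      exact ⟨h1 i j, h2 i j⟩
    · exact (LatLin.reSL e.symm).apply_symm_apply x

theorem inner_divO {d : ℕ} {D : Subring (MR d)} (hD : IsOrder D)
    (hx : ∀ x ∈ D, x ≠ 0 → x.det ≠ 0) : LatN.DivO (Fin d) D := ⟨hD.isOrd, hx⟩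

theorem allU_isInner.{v} {n d : ℕ} (hn : 3 ≤ n) {Λ : Subgroup (SLR n)} (h : IsInner n d Λ) :
    LatLin.AllU.{v} Λ := by
  rcases Nat.lt_or_ge d 2 with hd | hd
  · have h0 := h
    obtain ⟨m, e, D, hm, -, -, -⟩ := h0
    have hc := Fintype.card_congr e
    rw [Fintype.card_prod, Fintype.card_fin, Fintype.card_fin, Fintype.card_fin] at hc
    have hd1 : d = 1 := by
      rcases Nat.lt_or_ge d 1 with h1 | h1
      · have : d = 0 := by omega
        subst this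
        omega
      · omega
    subst hd1
    rw [inner_one h]
    exact LatLin.allU_SLnZ hn
  · obtain ⟨m, e, D, hm, hD, hx, hΛ⟩ := h
    refine LatLin.AllU.reindex e.symm Λ ?_
    rw [inner_model e D hΛ]
    exact LatLin.allU_inner (inner_divO hD hx) (by rwa [Fintype.card_fin])
      (by rwa [Fintype.card_fin])

theorem outer_model {n : ℕ} {Λ : Subgroup (SLR n)} (h : IsOuter n Λ) :
    ∃ O : Subring (LatN.DM (Fin n)), LatN.OutO (Fin n) O ∧ Λ = LatN.unitO O ∧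
      ∃ g ∈ LatN.unitO O, g ≠ 1 ∧ IsNilpotent (g.1 - 1) := by
  obtain ⟨O, h1, h2, h3, h4, h5⟩ := h
  have h6 : Λ = LatN.unitO O := by
    ext g
    exact h4 g
  refine ⟨O, ⟨h1.prod, h2, h3⟩, h6, ?_⟩
  rwa [← h6]

end LatAns
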