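import Mathlib

/-!
MP_2392aa_gt: the definitions used in the final statements (helper81).
-/

open scoped ContDiff Manifold Topology
open MulOpposite

namespace LatAns

/-- real `n × n` matrices -/
abbrev MR (n : ℕ) : Type := Matrix (Fin n) (Fin n) ℝ

/-- real `n × n` matrices of determinant one -/
abbrev SLR (n : ℕ) : Type := Matrix.SpecialLinearGroup (Fin n) ℝ

/-- the Euclidean space `ℝⁿ` -/
abbrev RR (n : ℕ) : Type := EuclideanSpace ℝ (Fin n)

/-- the subring `O` of the real algebra `A` consists of the integral combinations of a real basis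
of `A` -/
def IsOrder {A : Type} [Ring A] [Module ℝ A] (O : Subring A) : Prop :=
  ∃ (ι : Type) (b : Module.Basis ι ℝ A), ∀ x, x ∈ O ↔ x ∈ Submodule.span ℤ (Set.range b)

/-- the block `(i, j)`, of size `d × d`, of a matrix -/
def block {m d n : ℕ} (e : Fin m × Fin d ≃ Fin n) (x : MR n) (i j : Fin m) : MR d :=
  Matrix.of fun a b => x (e (i, a)) (e (j, b))

/-- inner type: `Λ = SL_m(D)`, `n = m d`, `m ≥ 2`, where `D` is an order of `M_d(ℝ)` in which all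
nonzero elements are invertible matrices (for `d = 1`: `Λ = SL_n(ℤ)`) -/
def IsInner (n d : ℕ) (Λ : Subgroup (SLR n)) : Prop :=
  ∃ (m : ℕ) (e : Fin m × Fin d ≃ Fin n) (D : Subring (MR d)), 2 ≤ m ∧ IsOrder D ∧
    (∀ x ∈ D, x ≠ 0 → x.det ≠ 0) ∧
    ∀ g : SLR n, g ∈ Λ ↔ ∀ i j, block e g.1 i j ∈ D ∧ block e g⁻¹.1 i j ∈ D

/-- outer type: `Λ` is the unitary group of an order `O` of `M_n(ℝ) × M_n(ℝ)ᵒᵖ` which contains
`(√q, -√q)`, `q` not a square, and is up to an integer factor stable under the exchange of the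
factors; it contains a unipotent element different from `1` -/
def IsOuter (n : ℕ) (Λ : Subgroup (SLR n)) : Prop :=
  ∃ O : Subring (MR n × (MR n)ᵐᵒᵖ), IsOrder O ∧
    (∃ q : ℕ, ¬ IsSquare q ∧
      ((Real.sqrt q • (1 : MR n), op (-(Real.sqrt q • (1 : MR n)))) : MR n × (MR n)ᵐᵒᵖ) ∈ O) ∧
    (∃ N : ℤ, N ≠ 0 ∧
      ∀ x : MR n × (MR n)ᵐᵒᵖ, x ∈ O → (N • (unop x.2, op x.1) : MR n × (MR n)ᵐᵒᵖ) ∈ O) ∧
    (∀ g : SLR n, g ∈ Λ ↔ ((g.1, op g⁻¹.1) : MR n × (MR n)ᵐᵒᵖ) ∈ O ∧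
      ((g⁻¹.1, op g.1) : MR n × (MR n)ᵐᵒᵖ) ∈ O) ∧
    ∃ g ∈ Λ, g ≠ 1 ∧ IsNilpotent (g.1 - 1)

/-- `Γ` is commensurable with `g Λ g⁻¹` for an invertible real matrix `g` -/
def CommConj {n : ℕ} (Γ Λ : Subgroup (SLR n)) : Prop :=
  ∃ (g : GL (Fin n) ℝ) (Λ' : Subgroup (SLR n)),
    (∀ x : SLR n, x ∈ Λ' ↔ ∃ y ∈ Λ, x.1 = g.1 * y.1 * (g⁻¹).1) ∧ Subgroup.Commensurable Γ Λ'

/-- cocompact discrete subgroups -/
def IsCocompact (n : ℕ) (Γ : Subgroup (SLR n)) : Prop :=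
  DiscreteTopology Γ ∧ CompactSpace (SLR n ⧸ Γ)

/-- the lattices of `SL_n(ℝ)`, `n ≥ 3`: cocompact discrete subgroups, and the groups commensurable
with a conjugate of an arithmetic group of inner or outer type -/
def IsLat (n : ℕ) (Γ : Subgroup (SLR n)) : Prop :=
  IsCocompact n Γ ∨ ∃ Λ : Subgroup (SLR n), ((∃ d, IsInner n d Λ) ∨ IsOuter n Λ) ∧ CommConj Γ Λ

/-- the lattices of `SL_n(ℝ)`, `n ≥ 3`, which are not commensurable with a conjugate of
`SL_n(ℤ)` -/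
def IsLatNotZ (n : ℕ) (Γ : Subgroup (SLR n)) : Prop :=
  IsCocompact n Γ ∨
    ∃ Λ : Subgroup (SLR n), ((∃ d, 2 ≤ d ∧ IsInner n d Λ) ∨ IsOuter n Λ) ∧ CommConj Γ Λ

/-- every element of the group acts as a smooth map of the manifold -/
def SmoothAction (n : ℕ) (M : Type*) [TopologicalSpace M] [ChartedSpace (RR n) M]
    (G : Type*) [Group G] [MulAction G M] : Prop :=
  ∀ γ : G, ContMDiff 𝓘(ℝ, RR n) 𝓘(ℝ, RR n) ∞ (fun x : M => γ • x)

/-- the derivative at `p` of the action of a group element -/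
noncomputable def derivAt (n : ℕ) {M : Type*} [TopologicalSpace M] [ChartedSpace (RR n) M]
    {G : Type*} [Group G] [MulAction G M] (γ : G) (p : M) : RR n →L[ℝ] RR n :=
  mfderiv 𝓘(ℝ, RR n) 𝓘(ℝ, RR n) (fun x : M => γ • x) p

/-- up to conjugation by a linear isomorphism `L` and up to signs `ε`, the derivative representation
of the stabilizer of `p` is the inclusion or its dual -/
def StandardOrDualAt {n : ℕ} {M : Type*} [TopologicalSpace M] [ChartedSpace (RR n) M]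
    (Γ : Subgroup (SLR n)) [MulAction Γ M] (p : M) : Prop :=
  ∃ (L : RR n ≃ₗ[ℝ] (Fin n → ℝ)) (ε : Γ → ℝ), (∀ γ, ε γ = 1 ∨ ε γ = -1) ∧
    ((∀ γ ∈ MulAction.stabilizer Γ p, ∀ v, L (derivAt n γ p v) = ε γ • γ.1.1.mulVec (L v)) ∨
      (∀ γ ∈ MulAction.stabilizer Γ p, ∀ v,
        L (derivAt n γ p v) = ε γ • (γ⁻¹).1.1.transpose.mulVec (L v)))

/-- the action of the stabilizer of `p` is smoothly linearizable near `p`, uniformly: there is a
smooth chart `e` around `p` in which every `γ` acts as its derivative `D`, on all points `x` of the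
chart for which `D (e x)` lies in the image of the chart -/
def UniformlyLinearAt (n : ℕ) {M : Type*} [TopologicalSpace M] [ChartedSpace (RR n) M]
    (G : Type*) [Group G] [MulAction G M] (p : M) : Prop :=
  ∃ e : OpenPartialHomeomorph M (RR n), p ∈ e.source ∧ e p = 0 ∧
    ContMDiffOn 𝓘(ℝ, RR n) 𝓘(ℝ, RR n) ∞ e e.source ∧
    ContMDiffOn 𝓘(ℝ, RR n) 𝓘(ℝ, RR n) ∞ e.symm e.target ∧
    ∀ γ ∈ MulAction.stabilizer G p, ∀ x ∈ e.source, derivAt n γ p (e x) ∈ e.target →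
      γ • x ∈ e.source ∧ e (γ • x) = derivAt n γ p (e x)

/-- the action of the stabilizer of `p` is smoothly linearizable near `p`, as germs: there is a
smooth chart `e` around `p` in which every `γ` acts near `p` as its derivative -/
def GermLinearAt (n : ℕ) {M : Type*} [TopologicalSpace M] [ChartedSpace (RR n) M]
    (G : Type*) [Group G] [MulAction G M] (p : M) : Prop :=
  ∃ e : OpenPartialHomeomorph M (RR n), p ∈ e.source ∧ e p = 0 ∧
    ContMDiffOn 𝓘(ℝ, RR n) 𝓘(ℝ, RR n) ∞ e e.source ∧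
    ContMDiffOn 𝓘(ℝ, RR n) 𝓘(ℝ, RR n) ∞ e.symm e.target ∧
    ∀ γ ∈ MulAction.stabilizer G p, ∀ᶠ x in 𝓝 p, e (γ • x) = derivAt n γ p (e x)

/-- the stabilizer of `p` leaves invariant an open set `U` containing `p` on which its action is
conjugate by a smooth diffeomorphism `φ`, with inverse `ψ`, to its derivative action on the whole
tangent space -/
def GloballyLinearAt (n : ℕ) {M : Type*} [TopologicalSpace M] [ChartedSpace (RR n) M]
    (G : Type*) [Group G] [MulAction G M] (p : M) : Prop :=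
  ∃ (U : Set M) (φ : M → RR n) (ψ : RR n → M), IsOpen U ∧ p ∈ U ∧
    (∀ γ ∈ MulAction.stabilizer G p, ∀ x ∈ U, γ • x ∈ U) ∧
    ContMDiffOn 𝓘(ℝ, RR n) 𝓘(ℝ, RR n) ∞ φ U ∧ ContMDiff 𝓘(ℝ, RR n) 𝓘(ℝ, RR n) ∞ ψ ∧
    (∀ v, ψ v ∈ U ∧ φ (ψ v) = v) ∧ (∀ x ∈ U, ψ (φ x) = x) ∧ φ p = 0 ∧
    ∀ γ ∈ MulAction.stabilizer G p, ∀ x ∈ U, φ (γ • x) = derivAt n γ p (φ x)

end LatAns
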