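import Pool.Agent.Lib.MP_2392aa_gt.C.FinQ
import Pool.Agent.Lib.MP_2392aa_gt.O.FinO
import Pool.Agent.Lib.MP_2392aa_gt.J.FinJ

/-!
MP_2392aa_gt: `InjRel` for the arithmetic groups of outer type (helper81, after helper69's FinO).
-/

open scoped ContDiff Topology
open MulOpposite
open LatN (En DM OutO unitO InjRel)

namespace LatLin

section
variable {ν : Type*} [Fintype ν] [DecidableEq ν] {O' : Subring (DM ν)}

/-- conjugation by `L` -/
private noncomputable def cjHom (L : GE (En ν))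
    (G1 : Subgroup (Matrix.SpecialLinearGroup ν ℝ)) : G1 →* cjG L⁻¹ (G1.map (slG ν)) where
  toFun g := ⟨L * slG ν g.1 * L⁻¹, by
    rw [mem_cjG]
    have h : L⁻¹ * (L * slG ν g.1 * L⁻¹) * (L⁻¹)⁻¹ = slG ν g.1 := by group
    rw [h]
    exact ⟨g.1, g.2, rfl⟩⟩
  map_one' := by
    apply Subtype.ext
    change L * slG ν 1 * L⁻¹ = 1
    rw [map_one]
    group
  map_mul' a c := by
    apply Subtype.ext
    change L * slG ν (a.1 * c.1) * L⁻¹ = (L * slG ν a.1 * L⁻¹) * (L * slG ν c.1 * L⁻¹)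
    rw [map_mul]
    group

private theorem cjHom_bij (L : GE (En ν)) (G1 : Subgroup (Matrix.SpecialLinearGroup ν ℝ)) :
    Function.Bijective (cjHom L G1) := by
  constructor
  · intro a c hac
    have h1 : L * slG ν a.1 * L⁻¹ = L * slG ν c.1 * L⁻¹ := congrArg Subtype.val hac
    exact Subtype.ext (slG_injective (mul_left_cancel (mul_right_cancel h1)))
  · rintro ⟨g, hg⟩
    obtain ⟨a, ha, hag⟩ := mem_cjG.1 hg
    refine ⟨⟨a, ha⟩, ?_⟩
    apply Subtype.ext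
    change L * slG ν a * L⁻¹ = g
    rw [hag]
    group

theorem injRel_unitO (hn : 3 ≤ Fintype.card ν) (hO : OutO ν O')
    {g : Matrix.SpecialLinearGroup ν ℝ}
    (hg : g ∈ unitO O') (hg1 : g ≠ 1) (hgn : IsNilpotent (g.1 - 1))
    (G1 : Subgroup (Matrix.SpecialLinearGroup ν ℝ)) (h1 : G1 ≤ unitO O')
    (h2 : G1.relIndex (unitO O') ≠ 0) : InjRel (stdR G1) := by
  have hν : Nonempty ν := Fintype.card_pos_iff.1 (by omega)
  obtain ⟨O, e, e', L, hOD, hcc⟩ := unip_O hO hg hg1 hgn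
  have hG := hcc G1 h1 h2
  have hn' : 3 ≤ Module.finrank ℝ (En ν) := by
    rw [finrank_euclideanSpace]
    exact hn
  let f : G1 ≃* cjG L⁻¹ (G1.map (slG ν)) := MulEquiv.ofBijective _ (cjHom_bij L G1)
  have hL : ∀ (γ : G1) (x : En ν), L (stdR G1 γ x) =
      (cjG L⁻¹ (G1.map (slG ν))).subtype (f γ) (L x) := by
    intro γ x
    change L (slG ν γ.1 x) = L (slG ν γ.1 (L.symm (L x)))
    rw [L.symm_apply_apply]
  refine injRel_transport L f (stdR G1) _ hL (injRel_O hOD hn' hG fun x t ht => ?_)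
  have hC := (contr_conn_stdR G1 (LatN.noHorn_outO hn hO h1 h2)).1
  have hb : 0 < ‖(L : En ν →L[ℝ] En ν)‖ + 1 := by positivity
  obtain ⟨γ, hγ⟩ := hC (L.symm x) (t / (‖(L : En ν →L[ℝ] En ν)‖ + 1)) (by positivity)
  refine ⟨(f γ).1, (f γ).2, ?_⟩
  have h3 := hL γ (L.symm x)
  rw [L.apply_symm_apply] at h3
  change ‖((cjG L⁻¹ (G1.map (slG ν))).subtype (f γ)) x‖ ≤ t
  rw [← h3]
  rw [le_div_iff₀ hb] at hγ
  have h4 := (L : En ν →L[ℝ] En ν).le_opNorm (stdR G1 γ (L.symm x))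
  have h5 : ‖(L : En ν →L[ℝ] En ν) (stdR G1 γ (L.symm x))‖ = ‖L (stdR G1 γ (L.symm x))‖ := rfl
  nlinarith [norm_nonneg (stdR G1 γ (L.symm x))]

end
end LatLin
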