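import Pool.Agent.Lib.MP_2392aa_gt.S.Unb

/-!
MP_2392aa_gt: smooth maps of `ℝⁿ` which are equivariant for a subgroup of finite index of `SL_n(ℤ)`
are linear on the coordinate axes (helper81).
-/

open scoped ContDiff Topology
open LatN (En)
open Filter

namespace LatLin

section
variable {n : ℕ}

/-- the unit vectors -/
noncomputable def ax (i : Fin n) : En (Fin n) := EuclideanSpace.single i 1

theorem ax_same (i : Fin n) : ax i i = 1 := by simp [ax]

theorem ax_ne {i j : Fin n} (h : j ≠ i) : ax i j = 0 := by simp [ax, h]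

theorem elt_ax {i j : Fin n} (h : i ≠ j) (c : ℝ) (x : En (Fin n)) :
    slG (Fin n) (elt h c) x = x + (c * x j) • ax i := elt_slG h c x

theorem fix_zero {i j : Fin n} (h : i ≠ j) {c : ℝ} (hc : c ≠ 0) {x : En (Fin n)}
    (hx : slG (Fin n) (elt h c) x = x) : x j = 0 := by
  rw [elt_ax] at hx
  have h1 : (c * x j) • ax i = (0 : En (Fin n)) := by
    have := congrArg (fun y => y - x) hx
    simpa using this
  have h2 := congrArg (fun y : En (Fin n) => y i) h1
  have h3 : c * x j = 0 := by simpa [ax] using h2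
  exact (mul_eq_zero.1 h3).resolve_left hc

theorem axis_linear (hn : 2 ≤ n) {Γ : Subgroup (Matrix.SpecialLinearGroup (Fin n) ℝ)}
    (h2 : Γ.relIndex (SLnZ n) ≠ 0) (Ψ : En (Fin n) → En (Fin n)) (hΨ : Differentiable ℝ Ψ)
    (heq : ∀ γ ∈ Γ, ∀ x, Ψ (slG (Fin n) γ x) = slG (Fin n) γ (Ψ x)) (i : Fin n) :
    ∃ c : ℝ, ∀ s : ℝ, Ψ (s • ax i) = (c * s) • ax i := by
  have hex : ∀ i : Fin n, ∃ j, j ≠ i := by
    intro i
    have : Nontrivial (Fin n) := Fin.nontrivial_iff_two_le.2 hn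
    exact exists_ne i
  have h0 : Ψ 0 = 0 := by
    ext j
    obtain ⟨i, hi⟩ := hex j
    obtain ⟨k, hk, hl⟩ := exists_elt h2 hi
    have h3 := heq _ (hl 1) 0
    rw [map_zero] at h3
    have hk0 : ((1 : ℕ) : ℝ) * (k : ℝ) ≠ 0 := by
      have : (k : ℝ) ≠ 0 := by exact_mod_cast hk.ne'
      simpa using this
    exact fix_zero hi hk0 h3.symm
  have hax : ∀ (i : Fin n) (s : ℝ), Ψ (s • ax i) = (Ψ (s • ax i) i) • ax i := by
    intro i s
    ext j
    by_cases hj : j = i
    · subst hj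
      simp [ax]
    · obtain ⟨k, hk, hl⟩ := exists_elt h2 (fun h : i = j => hj h.symm)
      have h3 := heq _ (hl 1) (s • ax i)
      have h4 : slG (Fin n) (elt (fun h : i = j => hj h.symm) (((1 : ℕ) : ℝ) * k)) (s • ax i) =
          s • ax i := by
        rw [elt_ax]
        simp [ax, hj]
      rw [h4] at h3
      have hk0 : ((1 : ℕ) : ℝ) * (k : ℝ) ≠ 0 := by
        have : (k : ℝ) ≠ 0 := by exact_mod_cast hk.ne'
        simpa using this
      rw [fix_zero _ hk0 h3.symm]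
      simp [ax, hj]
  obtain ⟨j, hj⟩ := hex i
  have hij : i ≠ j := fun h => hj h.symm
  obtain ⟨k, hk, hl⟩ := exists_elt h2 hij
  have hk0 : (0 : ℝ) < k := by exact_mod_cast hk
  set f : ℝ → ℝ := fun t => Ψ (t • ax j) j with hf
  have hfd : HasDerivAt f (deriv f 0) 0 := by
    have h3 : DifferentiableAt ℝ f 0 := by
      have h4 : Differentiable ℝ fun t : ℝ => Ψ (t • ax j) :=
        hΨ.comp (differentiable_id.smul_const _)
      have h5 : Differentiable ℝ fun t : ℝ => (EuclideanSpace.proj j : En (Fin n) →L[ℝ] ℝ)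
          (Ψ (t • ax j)) := (EuclideanSpace.proj j : En (Fin n) →L[ℝ] ℝ).differentiable.comp h4
      exact h5 0
    exact h3.hasDerivAt
  have hf0 : f 0 = 0 := by
    simp only [hf, zero_smul, h0]
    rfl
  refine ⟨deriv f 0, fun s => ?_⟩
  rcases eq_or_ne s 0 with rfl | hs
  · rw [zero_smul, mul_zero, zero_smul, h0]
  rw [hax i s]
  congr 1
  -- the key limit
  have hkey : ∀ l : ℕ, Ψ ((s / ((l + 1 : ℕ) * k)) • ax j + s • ax i) i =
      (l + 1 : ℕ) * k * f (s / ((l + 1 : ℕ) * k)) := by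
    intro l
    have hlk : ((l + 1 : ℕ) : ℝ) * k ≠ 0 := by positivity
    have h3 := heq _ (hl (l + 1)) ((s / ((l + 1 : ℕ) * k)) • ax j)
    rw [elt_ax, elt_ax] at h3
    have h4 : ((l + 1 : ℕ) : ℝ) * k * ((s / (((l + 1 : ℕ) : ℝ) * k)) • ax j : En (Fin n)) j = s := by
      rw [PiLp.smul_apply, ax_same, smul_eq_mul, mul_one]
      field_simp
    rw [h4] at h3
    rw [h3, PiLp.add_apply, PiLp.smul_apply, ax_same, smul_eq_mul, mul_one, hax j,
      PiLp.smul_apply, ax_ne hij, smul_zero, zero_add, PiLp.smul_apply, ax_same, smul_eq_mul,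
      mul_one]
  have ht : Tendsto (fun l : ℕ => s / (((l + 1 : ℕ) : ℝ) * k)) atTop (𝓝 0) := by
    have h3 : Tendsto (fun l : ℕ => ((l + 1 : ℕ) : ℝ) * k) atTop atTop :=
      ((tendsto_natCast_atTop_atTop (R := ℝ)).comp (tendsto_add_atTop_nat 1)).atTop_mul_const hk0
    exact tendsto_const_nhds.div_atTop h3
  have hlhs : Tendsto (fun l : ℕ => Ψ ((s / (((l + 1 : ℕ) : ℝ) * k)) • ax j + s • ax i) i) atTop
      (𝓝 (Ψ (s • ax i) i)) := by
    have h3 : Continuous fun x : En (Fin n) => Ψ x i :=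
      (EuclideanSpace.proj i : En (Fin n) →L[ℝ] ℝ).continuous.comp hΨ.continuous
    have h4 : Tendsto (fun l : ℕ => (s / (((l + 1 : ℕ) : ℝ) * k)) • ax j + s • ax i) atTop
        (𝓝 ((0 : ℝ) • ax j + s • ax i)) := (ht.smul_const _).add_const _
    rw [zero_smul, zero_add] at h4
    exact (h3.tendsto _).comp h4
  have hrhs : Tendsto (fun l : ℕ => ((l + 1 : ℕ) : ℝ) * k * f (s / (((l + 1 : ℕ) : ℝ) * k))) atTop
      (𝓝 (deriv f 0 * s)) := by
    have h3 := hfd.tendsto_slope_zero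
    have h4 : Tendsto (fun l : ℕ => s / (((l + 1 : ℕ) : ℝ) * k)) atTop (𝓝[≠] 0) :=
      tendsto_nhdsWithin_iff.2 ⟨ht, Filter.Eventually.of_forall fun l => by
        rw [Set.mem_compl_singleton_iff]
        positivity⟩
    have h5 := (h3.comp h4).mul_const s
    refine h5.congr fun l => ?_
    simp only [Function.comp_apply, zero_add, hf0, sub_zero, smul_eq_mul]
    have hlk : ((l + 1 : ℕ) : ℝ) * k ≠ 0 := by positivity
    field_simp
  exact tendsto_nhds_unique hlhs (hrhs.congr fun l => (hkey l).symm)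

theorem axis_mem (hn : 2 ≤ n) {Γ : Subgroup (Matrix.SpecialLinearGroup (Fin n) ℝ)}
    (h2 : Γ.relIndex (SLnZ n) ≠ 0) (Ψ : En (Fin n) → En (Fin n)) (hΨ : Differentiable ℝ Ψ)
    (hinj : Function.Injective Ψ)
    (heq : ∀ γ ∈ Γ, ∀ x, Ψ (slG (Fin n) γ x) = slG (Fin n) γ (Ψ x)) (i : Fin n) :
    ∃ v, Ψ v = ax i := by
  obtain ⟨c, hc⟩ := axis_linear hn h2 Ψ hΨ heq i
  have hc0 : c ≠ 0 := by
    rintro rfl
    have h3 : Ψ ((1 : ℝ) • ax i) = Ψ ((0 : ℝ) • ax i) := by
      rw [hc, hc, zero_mul, zero_mul]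
    have h4 := hinj h3
    rw [one_smul, zero_smul] at h4
    have h5 := congrArg (fun x : En (Fin n) => x i) h4
    simp [ax] at h5
  refine ⟨(1 / c) • ax i, ?_⟩
  rw [hc, mul_one_div_cancel hc0, one_smul]

end
end LatLin
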