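import Pool.Agent.Lib.MP_2392aa_gt.S.Unb
import Pool.Agent.Lib.MP_2392aa_gt.S.Defs

/-!
MP_2392aa_gt: the second question has a negative answer on the torus `(ℝ/ℤ)ⁿ` for the subgroups of
finite index of `SL_n(ℤ)`: an invariant neighbourhood of `0` contains torsion points, which have finite
orbits (helper85).
-/

open scoped ContDiff Topology Manifold
open LatN (En)
open Filter Set

namespace LatLin.Torus

variable {n : ℕ}

/-- the torus -/
def Tor (n : ℕ) : Type := Fin n → UnitAddCircle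

noncomputable instance : AddCommGroup (Tor n) := inferInstanceAs (AddCommGroup (Fin n → UnitAddCircle))

instance : TopologicalSpace (Tor n) := inferInstanceAs (TopologicalSpace (Fin n → UnitAddCircle))

instance : T2Space (Tor n) := inferInstanceAs (T2Space (Fin n → UnitAddCircle))

instance : CompactSpace (Tor n) := inferInstanceAs (CompactSpace (Fin n → UnitAddCircle))

instance : ConnectedSpace (Tor n) := inferInstanceAs (ConnectedSpace (Fin n → UnitAddCircle))

instance : SecondCountableTopology (Tor n) :=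
  inferInstanceAs (SecondCountableTopology (Fin n → UnitAddCircle))

/-- the projection -/
def pr (x : En (Fin n)) : Tor n := fun i => ((x i : ℝ) : UnitAddCircle)

theorem continuous_pr : Continuous (pr : En (Fin n) → Tor n) := by
  refine continuous_pi fun i => ?_
  exact (AddCircle.continuous_mk' (1 : ℝ)).comp
    (EuclideanSpace.proj i : En (Fin n) →L[ℝ] ℝ).continuous

theorem pr_surj : Function.Surjective (pr : En (Fin n) → Tor n) := by
  intro q
  have h : ∀ i, ∃ x : ℝ, (x : UnitAddCircle) = q i := fun i => QuotientAddGroup.mk_surjective (q i)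
  choose x hx using h
  exact ⟨(WithLp.toLp 2 x : En (Fin n)), funext hx⟩

theorem pr_eq {x y : En (Fin n)} (h : pr x = pr y) (i : Fin n) : ∃ m : ℤ, x i - y i = m := by
  have h1 : ((x i : ℝ) : UnitAddCircle) = (y i : ℝ) := congrFun h i
  have h2 : ((x i - y i : ℝ) : UnitAddCircle) = 0 := by
    rw [AddCircle.coe_sub, h1, sub_self]
  obtain ⟨m, hm⟩ := (AddCircle.coe_eq_zero_iff (1 : ℝ)).1 h2
  refine ⟨m, ?_⟩
  rw [← hm]
  simp

theorem locHomeo : IsLocalHomeomorph (pr : En (Fin n) → Tor n) := by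
  intro x
  refine ⟨(EuclideanSpace.equiv (Fin n) ℝ).toHomeomorph.toOpenPartialHomeomorph.trans
    (OpenPartialHomeomorph.pi fun i => AddCircle.openPartialHomeomorphCoe (1 : ℝ) (x i - 1 / 2)),
    ?_, rfl⟩
  rw [OpenPartialHomeomorph.trans_source]
  refine ⟨mem_univ _, ?_⟩
  rw [mem_preimage]
  intro i _
  change x i ∈ Ioo (x i - 1 / 2) (x i - 1 / 2 + 1)
  constructor <;> linarith

/-- the charts: local inverses of the projection -/
noncomputable instance instCharted : ChartedSpace (En (Fin n)) (Tor n) where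
  atlas := {e | ∃ x : En (Fin n), e = locHomeo.localInverseAt x}
  chartAt q := locHomeo.localInverseAt (Function.surjInv pr_surj q)
  mem_chart_source q := by
    have h := locHomeo.apply_self_mem_localInverseAt_source
      (x := Function.surjInv (pr_surj (n := n)) q)
    have h2 := Function.surjInv_eq (pr_surj (n := n)) q
    rw [h2] at h
    exact h
  chart_mem_atlas q := ⟨_, rfl⟩

theorem symm_eq {e : OpenPartialHomeomorph (Tor n) (En (Fin n))}
    (he : e ∈ atlas (En (Fin n)) (Tor n)) : (e.symm : En (Fin n) → Tor n) = pr := by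
  obtain ⟨x, rfl⟩ := he
  exact locHomeo.localInverseAt_symm x

theorem pr_chart {e : OpenPartialHomeomorph (Tor n) (En (Fin n))}
    (he : e ∈ atlas (En (Fin n)) (Tor n)) {q : Tor n} (hq : q ∈ e.source) : pr (e q) = q := by
  rw [← symm_eq he]
  exact e.left_inv hq

/-- in charts a map which lifts is locally the lift up to a translation -/
theorem key {e : OpenPartialHomeomorph (Tor n) (En (Fin n))}
    (he : e ∈ atlas (En (Fin n)) (Tor n)) {G : En (Fin n) → En (Fin n)} {x : En (Fin n)}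
    (hG : ContinuousAt G x) (hx : pr (G x) ∈ e.source) :
    ∃ c : En (Fin n), ∀ᶠ y in 𝓝 x, e (pr (G y)) = G y + c := by
  refine ⟨e (pr (G x)) - G x, ?_⟩
  have h1 : ContinuousAt (fun y => pr (G y)) x := continuous_pr.continuousAt.comp hG
  have h2 : ContinuousAt (fun y => e (pr (G y))) x :=
    ContinuousAt.comp (g := e) (e.continuousAt hx) h1
  have h3 : ContinuousAt (fun y => e (pr (G y)) - G y) x := h2.sub hG
  have h4 : ∀ᶠ y in 𝓝 x, pr (G y) ∈ e.source := h1.preimage_mem_nhds (e.open_source.mem_nhds hx)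
  have h5 : ∀ᶠ y in 𝓝 x, dist (e (pr (G y)) - G y) (e (pr (G x)) - G x) < 1 :=
    h3 (Metric.ball_mem_nhds _ one_pos)
  filter_upwards [h4, h5] with y hy1 hy2
  have h6 : e (pr (G y)) - G y = e (pr (G x)) - G x := by
    ext i
    obtain ⟨m, hm⟩ := pr_eq (pr_chart he hy1) i
    obtain ⟨k, hk⟩ := pr_eq (pr_chart he hx) i
    have h7 : |(e (pr (G y)) - G y) i - (e (pr (G x)) - G x) i| < 1 := by
      have h8 := (PiLp.norm_apply_le ((e (pr (G y)) - G y) - (e (pr (G x)) - G x)) i).trans_lt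
        (by rwa [← dist_eq_norm])
      exact h8
    have h9 : (e (pr (G y)) - G y) i = m := hm
    have h10 : (e (pr (G x)) - G x) i = k := hk
    rw [h9, h10] at h7 ⊢
    have h11 : |m - k| < 1 := by
      have h13 : |((m - k : ℤ) : ℝ)| < 1 := by
        push_cast
        exact h7
      rw [← Int.cast_abs] at h13
      exact_mod_cast h13
    have h12 : m = k := by
      have := abs_lt.1 h11
      omega
    rw [h12]
  rw [← h6]
  abel

instance : IsManifold 𝓘(ℝ, En (Fin n)) ∞ (Tor n) := by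
  refine isManifold_of_contDiffOn 𝓘(ℝ, En (Fin n)) ∞ (Tor n) ?_
  intro e e' he he'
  rintro x ⟨hx, -⟩
  have hx' : x ∈ (e.symm.trans e').source := hx
  rw [OpenPartialHomeomorph.trans_source] at hx'
  have hx2 : pr x ∈ e'.source := by
    rw [← symm_eq he]
    exact hx'.2
  obtain ⟨c, hc⟩ := key he' (G := fun y => y) continuousAt_id hx2
  refine ContDiffAt.contDiffWithinAt ?_
  have h1 : ContDiffAt ℝ ∞ (fun y : En (Fin n) => y + c) x := contDiffAt_id.add contDiffAt_const
  refine h1.congr_of_eventuallyEq ?_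
  filter_upwards [hc] with y hy
  change e' (e.symm y) = y + c
  rw [symm_eq he]
  exact hy

/-- the action of an integral matrix on the torus -/
def act (A : Matrix (Fin n) (Fin n) ℤ) (q : Tor n) : Tor n := fun i => ∑ j, A i j • q j

theorem act_one (q : Tor n) : act 1 q = q := by
  funext i
  change ∑ j, (1 : Matrix (Fin n) (Fin n) ℤ) i j • q j = q i
  simp [Matrix.one_apply]

theorem act_mul (A B : Matrix (Fin n) (Fin n) ℤ) (q : Tor n) : act (A * B) q = act A (act B q) := by
  funext i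
  change ∑ j, (A * B) i j • q j = ∑ j, A i j • ∑ k, B j k • q k
  simp only [Matrix.mul_apply, Finset.sum_smul, Finset.smul_sum, smul_smul]
  exact Finset.sum_comm

theorem act_zero (A : Matrix (Fin n) (Fin n) ℤ) : act A (0 : Tor n) = 0 := by
  funext i
  change ∑ j, A i j • (0 : UnitAddCircle) = 0
  simp

theorem act_nsmul (A : Matrix (Fin n) (Fin n) ℤ) (N : ℕ) (q : Tor n) :
    act A (N • q) = N • act A q := by
  funext i
  change ∑ j, A i j • (N • q j) = N • ∑ j, A i j • q j
  rw [Finset.smul_sum]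
  refine Finset.sum_congr rfl fun j _ => ?_
  exact smul_comm _ _ _

/-- the integral matrix of an element of `SL_n(ℤ)` -/
noncomputable def mz {Γ : Subgroup (Matrix.SpecialLinearGroup (Fin n) ℝ)} (hΓ : Γ ≤ SLnZ n) :
    Γ →* Matrix.SpecialLinearGroup (Fin n) ℤ :=
  (MonoidHom.ofInjective mapZ_injective).symm.toMonoidHom.comp (Subgroup.inclusion hΓ)

theorem mz_apply {Γ : Subgroup (Matrix.SpecialLinearGroup (Fin n) ℝ)} (hΓ : Γ ≤ SLnZ n) (γ : Γ)
    (i j : Fin n) : (((mz hΓ γ).1 i j : ℤ) : ℝ) = γ.1.1 i j := by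
  have h1 : Matrix.SpecialLinearGroup.map (n := Fin n) (Int.castRingHom ℝ) (mz hΓ γ) = γ.1 := by
    have h2 := (MonoidHom.ofInjective (mapZ_injective (n := n))).apply_symm_apply
      (Subgroup.inclusion hΓ γ)
    exact congrArg Subtype.val h2
  exact congrArg (fun x : Matrix.SpecialLinearGroup (Fin n) ℝ => x.1 i j) h1

/-- the action of a subgroup of `SL_n(ℤ)` on the torus -/
@[reducible] noncomputable def torAct {Γ : Subgroup (Matrix.SpecialLinearGroup (Fin n) ℝ)}
    (hΓ : Γ ≤ SLnZ n) : MulAction Γ (Tor n) where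
  smul γ q := act (mz hΓ γ).1 q
  one_smul q := by
    change act (mz hΓ 1).1 q = q
    rw [map_one]
    exact act_one q
  mul_smul γ δ q := by
    change act (mz hΓ (γ * δ)).1 q = act (mz hΓ γ).1 (act (mz hΓ δ).1 q)
    rw [map_mul]
    exact act_mul _ _ q

theorem act_pr {Γ : Subgroup (Matrix.SpecialLinearGroup (Fin n) ℝ)} (hΓ : Γ ≤ SLnZ n) (γ : Γ)
    (x : En (Fin n)) : act (mz hΓ γ).1 (pr x) = pr (slG (Fin n) γ.1 x) := by
  funext i
  change ∑ j, (mz hΓ γ).1 i j • ((x j : ℝ) : UnitAddCircle) =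
    ((slG (Fin n) γ.1 x i : ℝ) : UnitAddCircle)
  rw [slG_co]
  have h1 : ∀ j, (mz hΓ γ).1 i j • ((x j : ℝ) : UnitAddCircle) =
      ((γ.1.1 i j * x j : ℝ) : UnitAddCircle) := by
    intro j
    rw [← AddCircle.coe_zsmul, ← mz_apply hΓ, zsmul_eq_mul]
  rw [Finset.sum_congr rfl fun j _ => h1 j]
  exact (map_sum (QuotientAddGroup.mk' (AddSubgroup.zmultiples (1 : ℝ))) _ _).symm

theorem smooth_act (A : Matrix (Fin n) (Fin n) ℤ) (G : En (Fin n) →L[ℝ] En (Fin n))
    (hG : ∀ x, act A (pr x) = pr (G x)) :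
    ContMDiff 𝓘(ℝ, En (Fin n)) 𝓘(ℝ, En (Fin n)) ∞ (fun q : Tor n => act A q) := by
  have hc : Continuous (fun q : Tor n => act A q) := by
    refine continuous_pi fun i => ?_
    refine continuous_finsetSum _ fun j _ => ?_
    exact (continuous_zsmul (A i j)).comp (continuous_apply j)
  rw [contMDiff_iff]
  refine ⟨hc, fun p q => ?_⟩
  rintro x ⟨hx1, hx2⟩
  set e := chartAt (En (Fin n)) p with he
  set e' := chartAt (En (Fin n)) q with he'
  have hea : e ∈ atlas (En (Fin n)) (Tor n) := chart_mem_atlas _ _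
  have hea' : e' ∈ atlas (En (Fin n)) (Tor n) := chart_mem_atlas _ _
  have hx3 : pr (G x) ∈ e'.source := by
    have h1 : act A (e.symm x) ∈ e'.source := by
      have h2 : act A ((extChartAt 𝓘(ℝ, En (Fin n)) p).symm x) ∈
        (extChartAt 𝓘(ℝ, En (Fin n)) q).source := hx2
      rw [extChartAt_source] at h2
      exact h2
    rw [symm_eq hea, hG] at h1
    exact h1
  obtain ⟨c, hc'⟩ := key hea' G.continuous.continuousAt hx3
  refine ContDiffAt.contDiffWithinAt ?_
  have h1 : ContDiffAt ℝ ∞ (fun y : En (Fin n) => G y + c) x :=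
    G.contDiff.contDiffAt.add contDiffAt_const
  refine h1.congr_of_eventuallyEq ?_
  filter_upwards [hc'] with y hy
  change e' (act A (e.symm y)) = G y + c
  rw [symm_eq hea, hG]
  exact hy

theorem deriv_act (A : Matrix (Fin n) (Fin n) ℤ) (G : En (Fin n) →L[ℝ] En (Fin n))
    (hG : ∀ x, act A (pr x) = pr (G x)) (p : Tor n) (hp : act A p = p) :
    HasMFDerivAt 𝓘(ℝ, En (Fin n)) 𝓘(ℝ, En (Fin n)) (fun q : Tor n => act A q) p
      (G : En (Fin n) →L[ℝ] En (Fin n)) := by
  refine ⟨(smooth_act A G hG).continuous.continuousAt, ?_⟩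
  set e := chartAt (En (Fin n)) p with he
  have hea : e ∈ atlas (En (Fin n)) (Tor n) := chart_mem_atlas _ _
  have hx0 : pr (e p) = p := pr_chart hea (mem_chart_source _ p)
  have hx : pr (G (e p)) ∈ e.source := by
    rw [← hG, hx0, hp]
    exact mem_chart_source _ p
  obtain ⟨c, hc⟩ := key hea G.continuous.continuousAt hx
  have h1 : HasFDerivAt (fun y : En (Fin n) => G y + c) G (e p) := G.hasFDerivAt.add_const c
  have h2 : writtenInExtChartAt 𝓘(ℝ, En (Fin n)) 𝓘(ℝ, En (Fin n)) p (fun q : Tor n => act A q) =ᶠ[𝓝 (e p)]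
      fun y => G y + c := by
    filter_upwards [hc] with y hy
    change (chartAt (En (Fin n)) (act A p)) (act A (e.symm y)) = G y + c
    rw [hp, symm_eq hea, hG]
    exact hy
  exact (h1.congr_of_eventuallyEq h2).hasFDerivWithinAt

theorem elt_slG_apply {i j : Fin n} (h : i ≠ j) (c : ℝ) (x : En (Fin n)) :
    slG (Fin n) (elt h c) x i = x i + c * x j := by
  rw [elt_slG]
  simp

/-- elementary matrices act on the torus -/
theorem act_elt {Γ : Subgroup (Matrix.SpecialLinearGroup (Fin n) ℝ)} (hΓ : Γ ≤ SLnZ n)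
    {i j : Fin n} (h : i ≠ j) (k : ℕ) (hk : elt h k ∈ Γ) (q : Tor n) :
    act (mz hΓ ⟨elt h k, hk⟩).1 q i = q i + k • q j := by
  obtain ⟨x, rfl⟩ := pr_surj q
  rw [act_pr]
  change ((slG (Fin n) (elt h k) x i : ℝ) : UnitAddCircle) =
    ((x i : ℝ) : UnitAddCircle) + k • ((x j : ℝ) : UnitAddCircle)
  rw [elt_slG_apply, AddCircle.coe_add, ← AddCircle.coe_nsmul, nsmul_eq_mul]

theorem finite_tors (N : ℕ) (hN : 0 < N) : {q : Tor n | N • q = 0}.Finite := by
  have h1 := Set.Finite.pi' (ι := Fin n) (fun _ => AddCircle.finite_torsion (1 : ℝ) hN)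
  refine h1.subset ?_
  intro q hq i
  exact congrFun hq i

theorem finite_fix (hn : 2 ≤ n) {Γ : Subgroup (Matrix.SpecialLinearGroup (Fin n) ℝ)}
    (hΓ : Γ ≤ SLnZ n) (h2 : Γ.relIndex (SLnZ n) ≠ 0) :
    {q : Tor n | ∀ γ : Γ, act (mz hΓ γ).1 q = q}.Finite := by
  have hnt : Nontrivial (Fin n) := Fin.nontrivial_iff_two_le.2 hn
  have h3 : ∀ j : Fin n, ∃ k : ℕ, 0 < k ∧
      ∀ q : Tor n, (∀ γ : Γ, act (mz hΓ γ).1 q = q) → k • q j = 0 := by
    intro j
    obtain ⟨i, hij⟩ := exists_ne j
    obtain ⟨k, hk, hl⟩ := exists_elt h2 hij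
    have hk1 : elt hij ((k : ℕ) : ℝ) ∈ Γ := by
      have := hl 1
      rwa [Nat.cast_one, one_mul] at this
    refine ⟨k, hk, fun q hq => ?_⟩
    have h4 := congrFun (hq ⟨_, hk1⟩) i
    rw [act_elt hΓ hij k hk1] at h4
    exact left_eq_add.1 h4.symm
  choose k hk hk' using h3
  have h1 := Set.Finite.pi' (ι := Fin n) (fun j => AddCircle.finite_torsion (1 : ℝ) (hk j))
  refine h1.subset ?_
  intro q hq j
  exact hk' j q hq

open LatAns in
/-- The second question on the torus. -/
theorem torus_example (hn : 2 ≤ n) (Γ : Subgroup (SLR n))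
    (hΓ : Γ ≤ (Matrix.SpecialLinearGroup.map (Int.castRingHom ℝ)).range)
    (h2 : Γ.relIndex (Matrix.SpecialLinearGroup.map (Int.castRingHom ℝ)).range ≠ 0) :
    ∃ (M : Type) (_ : TopologicalSpace M) (_ : T2Space M) (_ : SecondCountableTopology M)
      (_ : CompactSpace M) (_ : ConnectedSpace M) (_ : ChartedSpace (RR n) M)
      (_ : IsManifold 𝓘(ℝ, RR n) ∞ M) (_ : MulAction Γ M) (p : M),
      SmoothAction n M Γ ∧ (∀ γ : Γ, γ • p = p) ∧ {x : M | ∀ γ : Γ, γ • x = x}.Finite ∧
      (∀ (γ : Γ) (v : RR n), (derivAt n γ p v).ofLp = γ.1.1.mulVec v.ofLp) ∧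
      (∀ C : ℝ, ∃ γ : Γ, C < ‖derivAt n γ p‖) ∧ ¬ GloballyLinearAt n Γ p := by
  letI hact : MulAction Γ (Tor n) := torAct hΓ
  have hG : ∀ (γ : Γ) (x : En (Fin n)), act (mz hΓ γ).1 (pr x) =
      pr ((slG (Fin n) γ.1 : En (Fin n) →L[ℝ] En (Fin n)) x) := fun γ x => act_pr hΓ γ x
  have hp0 : ∀ γ : Γ, act (mz hΓ γ).1 (0 : Tor n) = 0 := fun γ => act_zero _
  have hd : ∀ γ : Γ, derivAt n γ (0 : Tor n) =
      (slG (Fin n) γ.1 : En (Fin n) →L[ℝ] En (Fin n)) := fun γ =>
    (deriv_act (mz hΓ γ).1 _ (hG γ) 0 (hp0 γ)).mfderiv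
  refine ⟨Tor n, inferInstance, inferInstance, inferInstance, inferInstance, inferInstance,
    inferInstance, inferInstance, hact, 0, ?_, hp0, finite_fix hn hΓ h2, ?_, ?_, ?_⟩
  · intro γ
    exact smooth_act (mz hΓ γ).1 _ (hG γ)
  · intro γ v
    rw [hd]
    funext i
    exact slG_co γ.1 v i
  · intro C
    obtain ⟨γ, hγ, hC⟩ := unbounded_of_index hn h2 C
    refine ⟨⟨γ, hγ⟩, ?_⟩
    rw [hd]
    exact hC
  · rintro ⟨U, φ, ψ, hUo, hpU, hU, hφ, hψ, hφψ, hψφ, hφp, heq⟩
    -- a torsion point close to `0`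
    have hn0 : 0 < n := by omega
    let i0 : Fin n := ⟨0, hn0⟩
    have hlim : Tendsto (fun N : ℕ => pr ((1 / ((N : ℝ) + 1)) • EuclideanSpace.single i0 (1 : ℝ) :
        En (Fin n))) atTop (𝓝 (pr (0 : En (Fin n)))) := by
      refine (continuous_pr.tendsto _).comp ?_
      have h3 : Tendsto (fun N : ℕ => (1 / ((N : ℝ) + 1))) atTop (𝓝 0) :=
        tendsto_one_div_add_atTop_nhds_zero_nat
      have h4 := h3.smul_const (EuclideanSpace.single i0 (1 : ℝ) : En (Fin n))
      rwa [zero_smul] at h4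
    have hpr0 : pr (0 : En (Fin n)) = 0 := by
      funext i
      rfl
    rw [hpr0] at hlim
    have hev := (hlim.eventually (hUo.mem_nhds hpU)).and (eventually_ge_atTop 1)
    obtain ⟨N, hNU, hN1⟩ := hev.exists
    set q : Tor n := pr ((1 / ((N : ℝ) + 1)) • EuclideanSpace.single i0 (1 : ℝ) : En (Fin n)) with hq
    have hN0 : (0 : ℝ) < (N : ℝ) + 1 := by positivity
    have hqi : ∀ i, q i = ((if i = i0 then 1 / ((N : ℝ) + 1) else 0 : ℝ) : UnitAddCircle) := by
      intro i
      rw [hq]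
      change ((((1 / ((N : ℝ) + 1)) • EuclideanSpace.single i0 (1 : ℝ) : En (Fin n)) i : ℝ) :
        UnitAddCircle) = _
      congr 1
      by_cases hi : i = i0
      · subst hi
        simp
      · simp [hi]
    have hqN : (N + 1) • q = 0 := by
      funext i
      change (N + 1) • q i = 0
      rw [hqi, ← AddCircle.coe_nsmul, nsmul_eq_mul]
      by_cases hi : i = i0
      · rw [if_pos hi, AddCircle.coe_eq_zero_iff]
        refine ⟨1, ?_⟩
        push_cast
        field_simp
        simp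
      · rw [if_neg hi, mul_zero]
        rfl
    have hq0 : q ≠ 0 := by
      intro h
      have h1 : q i0 = 0 := congrFun h i0
      rw [hqi, if_pos rfl, AddCircle.coe_eq_zero_iff] at h1
      obtain ⟨m, hm⟩ := h1
      rw [zsmul_eq_mul, mul_one] at hm
      have h4 : (m : ℝ) * ((N : ℝ) + 1) = 1 := by
        rw [hm]
        field_simp
      have h5 : m * ((N : ℤ) + 1) = 1 := by exact_mod_cast h4
      have h6 : ((N : ℤ) + 1) ∣ 1 := ⟨m, by rw [mul_comm]; exact h5.symm⟩
      have h7 := Int.le_of_dvd one_pos h6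
      have h8 : (1 : ℤ) ≤ N := by exact_mod_cast hN1
      omega
    set v := φ q with hv
    have hv0 : v ≠ 0 := by
      intro h
      apply hq0
      rw [← hψφ q hNU, ← hv, h, ← hφp, hψφ 0 hpU]
    obtain ⟨j, hj⟩ : ∃ j, v j ≠ 0 := by
      by_contra hc
      push Not at hc
      exact hv0 (by ext i; exact hc i)
    have hnt : Nontrivial (Fin n) := Fin.nontrivial_iff_two_le.2 hn
    obtain ⟨i, hij⟩ := exists_ne j
    obtain ⟨k, hk, hl⟩ := exists_elt h2 hij
    -- the orbit of the torsion point is finite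
    have hfin := finite_tors (n := n) (N + 1) (Nat.succ_pos N)
    let g : ℕ → Γ := fun l => ⟨elt hij (l * k), hl l⟩
    have hmem : ∀ l : ℕ, g l • q ∈ {x : Tor n | (N + 1) • x = 0} := by
      intro l
      change (N + 1) • act (mz hΓ (g l)).1 q = 0
      rw [← act_nsmul, hqN, act_zero]
    have hnot : ¬ Function.Injective fun l : ℕ => g l • q := by
      intro hinj
      exact Set.infinite_of_injective_forall_mem hinj hmem hfin
    apply hnot
    intro l l' hll
    have hval : ∀ l : ℕ, φ (g l • q) i = v i + (l * k) * v j := by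
      intro l
      rw [heq (g l) (hp0 (g l)) q hNU, hd]
      exact elt_slG_apply hij _ v
    have h3 : φ (g l • q) i = φ (g l' • q) i := congrArg (fun x => φ x i) hll
    rw [hval, hval] at h3
    have hk0 : (k : ℝ) ≠ 0 := by exact_mod_cast hk.ne'
    have h4 : (l : ℝ) * (k * v j) = l' * (k * v j) := by linarith
    have h5 := mul_right_cancel₀ (mul_ne_zero hk0 hj) h4
    exact_mod_cast h5

end LatLin.Torus
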