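import Pool.Agent.Lib.MP_2392aa_gt.C.FinE

/-!
MP_2392aa_gt: elementary matrices in subgroups of finite index of `SL_n(ℤ)` (helper81).
-/

open LatN (En)

namespace LatLin

section
variable {n : ℕ}

/-- elementary matrices -/
def elt {i j : Fin n} (h : i ≠ j) (c : ℝ) : Matrix.SpecialLinearGroup (Fin n) ℝ :=
  ⟨Matrix.transvection i j c, Matrix.det_transvection_of_ne i j h c⟩

theorem elt_mul {i j : Fin n} (h : i ≠ j) (c d : ℝ) : elt h c * elt h d = elt h (c + d) := by
  apply Subtype.ext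
  change Matrix.transvection i j c * Matrix.transvection i j d = Matrix.transvection i j (c + d)
  exact Matrix.transvection_mul_transvection_same i j h c d

theorem elt_zero {i j : Fin n} (h : i ≠ j) : elt h 0 = 1 := by
  apply Subtype.ext
  exact Matrix.transvection_zero i j

theorem elt_pow {i j : Fin n} (h : i ≠ j) (c : ℝ) (k : ℕ) : elt h c ^ k = elt h (k * c) := by
  induction k with
  | zero => rw [pow_zero, Nat.cast_zero, zero_mul, elt_zero]
  | succ k ih =>
    rw [pow_succ, ih, elt_mul]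
    congr 1
    push_cast
    ring

theorem elt_int {i j : Fin n} (h : i ≠ j) : elt h 1 ∈ SLnZ n := by
  refine ⟨⟨Matrix.transvection i j 1, Matrix.det_transvection_of_ne i j h 1⟩, ?_⟩
  apply Subtype.ext
  ext a b
  change ((Matrix.transvection i j (1 : ℤ) a b : ℤ) : ℝ) = Matrix.transvection i j (1 : ℝ) a b
  simp only [Matrix.transvection, Matrix.add_apply, Matrix.one_apply, Matrix.single_apply]
  split_ifs <;> norm_num

theorem elt_slG {i j : Fin n} (h : i ≠ j) (c : ℝ) (x : En (Fin n)) :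
    slG (Fin n) (elt h c) x = x + (c * x j) • EuclideanSpace.single i (1 : ℝ) := by
  ext a
  rw [slG_co]
  change ∑ b, Matrix.transvection i j c a b * x b = _
  have h1 : ∀ b, Matrix.transvection i j c a b * x b =
      (if a = b then x b else 0) + (if j = b then (if i = a then c * x b else 0) else 0) := by
    intro b
    simp only [Matrix.transvection, Matrix.add_apply, Matrix.one_apply, Matrix.single_apply]
    by_cases h1 : a = b <;> by_cases h2 : j = b <;> by_cases h3 : i = a <;>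
      simp [h1, h2, h3, add_mul]
  simp only [h1, Finset.sum_add_distrib, Finset.sum_ite_eq, Finset.mem_univ, if_true]
  by_cases h3 : i = a
  · subst h3
    simp
  · have h4 : a ≠ i := fun h => h3 h.symm
    simp [h3, h4]

/-- a subgroup of finite index contains elementary matrices -/
theorem exists_elt {Γ : Subgroup (Matrix.SpecialLinearGroup (Fin n) ℝ)}
    (h2 : Γ.relIndex (SLnZ n) ≠ 0) {i j : Fin n} (h : i ≠ j) :
    ∃ k : ℕ, 0 < k ∧ ∀ l : ℕ, elt h (l * k) ∈ Γ := by
  obtain ⟨k, hk, -, hk'⟩ := Subgroup.exists_pow_mem_of_relIndex_ne_zero h2 (elt_int h)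
  rw [elt_pow, mul_one] at hk'
  refine ⟨k, hk, fun l => ?_⟩
  have := Γ.pow_mem hk'.1 l
  rwa [elt_pow] at this

/-- the group is unbounded -/
theorem unbounded_of_index (hn : 2 ≤ n) {Γ : Subgroup (Matrix.SpecialLinearGroup (Fin n) ℝ)}
    (h2 : Γ.relIndex (SLnZ n) ≠ 0) (C : ℝ) :
    ∃ γ ∈ Γ, C < ‖(slG (Fin n) γ : En (Fin n) →L[ℝ] En (Fin n))‖ := by
  have hij : (⟨0, by omega⟩ : Fin n) ≠ ⟨1, by omega⟩ := by
    intro h
    have := congrArg Fin.val h
    simp at this
  obtain ⟨k, hk, hl⟩ := exists_elt h2 hij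
  obtain ⟨l, hlC⟩ := exists_nat_gt C
  refine ⟨_, hl (l + 1), ?_⟩
  set c : ℝ := ((l + 1 : ℕ) : ℝ) * k with hc
  have h3 := (slG (Fin n) (elt hij c) : En (Fin n) →L[ℝ] En (Fin n)).le_opNorm
    (EuclideanSpace.single ⟨1, by omega⟩ 1)
  rw [EuclideanSpace.norm_single, norm_one, mul_one] at h3
  have h4 : (slG (Fin n) (elt hij c) : En (Fin n) →L[ℝ] En (Fin n))
      (EuclideanSpace.single ⟨1, by omega⟩ 1) =
      EuclideanSpace.single ⟨1, by omega⟩ 1 + c • EuclideanSpace.single ⟨0, by omega⟩ (1 : ℝ) := by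
    have := elt_slG hij c (EuclideanSpace.single ⟨1, by omega⟩ 1)
    simpa using this
  have h5 : |c| ≤ ‖(slG (Fin n) (elt hij c) : En (Fin n) →L[ℝ] En (Fin n))
      (EuclideanSpace.single ⟨1, by omega⟩ 1)‖ := by
    rw [h4]
    have h6 := PiLp.norm_apply_le (EuclideanSpace.single (⟨1, by omega⟩ : Fin n) 1 +
      c • EuclideanSpace.single (⟨0, by omega⟩ : Fin n) (1 : ℝ)) (⟨0, by omega⟩ : Fin n)
    simpa [hij] using h6
  have h7 : (l : ℝ) < c := by
    rw [hc]
    push_cast
    have : (1 : ℝ) ≤ k := by exact_mod_cast hk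
    nlinarith [Nat.cast_nonneg (α := ℝ) l]
  have h8 := le_abs_self c
  linarith

end
end LatLin
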